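import Pool.Agent.N936.TC.Stm

/-! PROJECT TC (helper936), leaf KCONN: the second set is the first set of the reversed model. -/

set_option autoImplicit false

namespace Pool.Agent.N199.TCK

open Set Topology Pool.Agent.N936.TC

/-- the reversed map -/
def rev {X : Type} (σ : Bool → Q ≃ₜ Q) (Φ : Q × Bool × I → X) : Q × Bool × I → X :=
  fun p => Φ ((σ p.2.1).symm p.1, p.2.1, unitInterval.symm p.2.2)

lemma rev_cont {X : Type} [TopologicalSpace X] (σ : Bool → Q ≃ₜ Q) {Φ : Q × Bool × I → X}
    (h : Continuous Φ) : Continuous (rev σ Φ) := by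
  have h1 : Continuous (fun p : Bool × Q => (σ p.1).symm p.2) := by
    rw [continuous_prod_of_discrete_left]
    intro i
    exact (σ i).symm.continuous
  have h2 : Continuous (fun p : Q × Bool × I => (σ p.2.1).symm p.1) := by
    have h3 : Continuous (fun p : Q × Bool × I => ((p.2.1, p.1) : Bool × Q)) :=
      (continuous_fst.comp continuous_snd).prodMk continuous_fst
    exact h1.comp h3
  have h4 : Continuous (fun p : Q × Bool × I => unitInterval.symm p.2.2) :=
    unitInterval.continuous_symm.comp (continuous_snd.comp continuous_snd)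
  exact h.comp (h2.prodMk ((continuous_fst.comp continuous_snd).prodMk h4))

lemma rev_apply {X : Type} (σ : Bool → Q ≃ₜ Q) (Φ : Q × Bool × I → X) (q : Q) (i : Bool) (s : I) :
    rev σ Φ (q, i, s) = Φ ((σ i).symm q, i, unitInterval.symm s) := rfl

lemma kset_eq {X : Type} (σ : Bool → Q ≃ₜ Q) (Φ : Q × Bool × I → X) :
    Kset Φ = Wset (rev σ Φ) := by
  ext z
  constructor
  · rintro ⟨q, i, s, r, j, t, h, rfl⟩
    refine ⟨σ i q, i, unitInterval.symm s, σ j r, j, unitInterval.symm t, ?_, ?_⟩
    · rw [unitInterval.coe_symm_eq, unitInterval.coe_symm_eq]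
      exact h
    · rw [rev_apply, rev_apply, Homeomorph.symm_apply_apply, Homeomorph.symm_apply_apply,
        unitInterval.symm_symm, unitInterval.symm_symm]
  · rintro ⟨q, i, s, r, j, t, h, rfl⟩
    refine ⟨(σ i).symm q, i, unitInterval.symm s, (σ j).symm r, j, unitInterval.symm t, ?_, ?_⟩
    · rw [unitInterval.coe_symm_eq, unitInterval.coe_symm_eq, sub_sub_cancel, sub_sub_cancel]
      exact h
    · rw [rev_apply, rev_apply]

theorem t_kconn (hW : S_WCONN) : S_KCONN := by
  intro σ X _ _ Φ hc hb ht hT
  rw [kset_eq σ Φ]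
  have hz : ∀ (q : Q) (i j : Bool), rev σ Φ (q, i, 0) = Φ (q, j, 0) := by
    intro q i j
    rw [rev_apply, unitInterval.symm_zero, ht ((σ i).symm q) i j, Homeomorph.apply_symm_apply]
  refine hW (fun i => (σ i).symm) X (rev σ Φ) (rev_cont σ hc) ?_ ?_ ?_
  · intro q i j
    rw [hz q i true, hz q j true]
  · intro q i j
    rw [hz ((σ i).symm q) j i, rev_apply, unitInterval.symm_one]
  · intro D hD h
    refine hT D hD ?_
    intro i q
    have h1 := h i (σ i q)
    rw [Homeomorph.symm_apply_apply] at h1
    exact h1.symm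

end Pool.Agent.N199.TCK
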