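import Pool.Agent.N343.TC.Stm

/-! Powers `(1 + W / k²) ^ k` and their inverses in a Banach algebra. -/

set_option autoImplicit false
set_option linter.unusedSectionVars false
set_option linter.unusedVariables false

open MeasureTheory Set Filter Topology Metric Complex
open scoped ContDiff RealInnerProductSpace ComplexConjugate

namespace Pool.Agent.N199.TC.POW

open Pool.Agent.N343.TC

variable {B : Type} [NormedCommRing B] [NormedAlgebra ℂ B]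

lemma pw (h1 : ‖(1 : B)‖ = 1) {a : B} {r : ℝ} (ha : ‖a‖ ≤ r) (k : ℕ) : ‖a ^ k‖ ≤ r ^ k := by
  have hr : 0 ≤ r := (norm_nonneg a).trans ha
  induction k with
  | zero => simp [h1]
  | succ n ih =>
    rw [pow_succ, pow_succ]
    exact (norm_mul_le _ _).trans (mul_le_mul ih ha (norm_nonneg _) (by positivity))

lemma tel (h1 : ‖(1 : B)‖ = 1) {a b : B} {r : ℝ} (hr : 1 ≤ r) (ha : ‖a‖ ≤ r) (hb : ‖b‖ ≤ r)
    (k : ℕ) : ‖a ^ k - b ^ k‖ ≤ k * r ^ k * ‖a - b‖ := by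
  induction k with
  | zero => simp
  | succ n ih =>
    have e : a ^ (n + 1) - b ^ (n + 1) = a ^ n * (a - b) + (a ^ n - b ^ n) * b := by ring
    have hrn : r ^ n ≤ r ^ (n + 1) := pow_le_pow_right₀ hr (Nat.le_succ n)
    have h2 : ‖a ^ n * (a - b)‖ ≤ r ^ (n + 1) * ‖a - b‖ :=
      (norm_mul_le _ _).trans (mul_le_mul_of_nonneg_right ((pw h1 ha n).trans hrn) (norm_nonneg _))
    have h3 : ‖(a ^ n - b ^ n) * b‖ ≤ (n * r ^ n * ‖a - b‖) * r :=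
      (norm_mul_le _ _).trans (mul_le_mul ih hb (norm_nonneg _) (by positivity))
    rw [e]
    refine (norm_add_le _ _).trans ((add_le_add h2 h3).trans (le_of_eq ?_))
    push_cast
    ring

lemma xx_norm (k : ℕ) (W : B) : ‖xx k W‖ = ‖W‖ / (k : ℝ) ^ 2 := by
  unfold xx
  rw [norm_smul, norm_inv, norm_pow, Complex.norm_natCast, inv_mul_eq_div]

lemma xx_sub (k : ℕ) (W W' : B) : xx k W - xx k W' = xx k (W - W') := by
  unfold xx
  rw [smul_sub]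

lemma exp_one_le : Real.exp 1 ≤ 3 := by
  have := Real.exp_one_lt_d9
  linarith

lemma pow_le {c : ℝ} (hc : 0 ≤ c) {k : ℕ} (hk : 0 < k) :
    (1 + c / (k : ℝ) ^ 2) ^ k ≤ Real.exp (c / k) := by
  have hk' : (0 : ℝ) < k := by exact_mod_cast hk
  have h1 : 1 + c / (k : ℝ) ^ 2 ≤ Real.exp (c / (k : ℝ) ^ 2) := by
    have := Real.add_one_le_exp (c / (k : ℝ) ^ 2)
    linarith
  have h2 : (1 + c / (k : ℝ) ^ 2) ^ k ≤ Real.exp (c / (k : ℝ) ^ 2) ^ k :=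
    pow_le_pow_left₀ (by positivity) h1 k
  refine h2.trans (le_of_eq ?_)
  rw [← Real.exp_nat_mul]
  congr 1
  field_simp

lemma six {k : ℕ} (hk : 6 ≤ k) : (6 : ℝ) ≤ k := by exact_mod_cast hk

lemma sq36 {k : ℕ} (hk : 6 ≤ k) : (36 : ℝ) ≤ (k : ℝ) ^ 2 := by
  have := six hk
  nlinarith

lemma one_add (h1 : ‖(1 : B)‖ = 1) {k : ℕ} {W : B} (hW : ‖W‖ ≤ 6) :
    ‖1 + xx k W‖ ≤ 1 + 6 / (k : ℝ) ^ 2 := by
  refine (norm_add_le _ _).trans ?_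
  rw [h1, xx_norm]
  have : ‖W‖ / (k : ℝ) ^ 2 ≤ 6 / (k : ℝ) ^ 2 := by gcongr
  linarith

lemma part1 (h1 : ‖(1 : B)‖ = 1) {k : ℕ} (hk : 6 ≤ k) {W W' : B} (hW : ‖W‖ ≤ 6)
    (hW' : ‖W'‖ ≤ 6) : ‖(1 + xx k W) ^ k - (1 + xx k W') ^ k‖ ≤ 3 / k * ‖W - W'‖ := by
  have hk6 := six hk
  have hk0 : (0 : ℝ) < k := by linarith
  have hr : (1 : ℝ) ≤ 1 + 6 / (k : ℝ) ^ 2 := by
    have : (0 : ℝ) ≤ 6 / (k : ℝ) ^ 2 := by positivity
    linarith
  have h2 := tel h1 hr (one_add (k := k) h1 hW) (one_add (k := k) h1 hW') k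
  have h3 : (1 + 6 / (k : ℝ) ^ 2) ^ k ≤ 3 := by
    refine (pow_le (by norm_num) (by omega)).trans (le_trans (Real.exp_le_exp.2 ?_) exp_one_le)
    rw [div_le_one hk0]
    exact hk6
  have h4 : ‖1 + xx k W - (1 + xx k W')‖ = ‖W - W'‖ / (k : ℝ) ^ 2 := by
    rw [add_sub_add_left_eq_sub, xx_sub, xx_norm]
  rw [h4] at h2
  refine h2.trans ?_
  calc (k : ℝ) * (1 + 6 / (k : ℝ) ^ 2) ^ k * (‖W - W'‖ / (k : ℝ) ^ 2)
      ≤ k * 3 * (‖W - W'‖ / (k : ℝ) ^ 2) := by gcongr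
    _ = 3 / k * ‖W - W'‖ := by field_simp

lemma xx_zero (k : ℕ) : xx k (0 : B) = 0 := by
  unfold xx
  rw [smul_zero]

section

variable [CompleteSpace B]

lemma inv_mul {k : ℕ} (hk : 6 ≤ k) {W : B} (hW : ‖W‖ ≤ 6) : GG k W * (1 + xx k W) = 1 := by
  have h36 := sq36 hk
  have hx : ‖-xx k W‖ < 1 := by
    rw [norm_neg, xx_norm, div_lt_one (by linarith)]
    linarith
  have hu : IsUnit (1 + xx k W) := by
    have := isUnit_one_sub_of_norm_lt_one hx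
    rwa [sub_neg_eq_add] at this
  exact Ring.inverse_mul_cancel _ hu

lemma gg_norm (h1 : ‖(1 : B)‖ = 1) {k : ℕ} (hk : 6 ≤ k) {W : B} (hW : ‖W‖ ≤ 6) :
    ‖GG k W‖ ≤ 6 / 5 ∧ ‖GG k W‖ ≤ 1 + 12 / (k : ℝ) ^ 2 := by
  have h36 := sq36 hk
  have h2 := inv_mul hk hW
  have h3 : GG k W = 1 - GG k W * xx k W := by
    rw [mul_add, mul_one] at h2
    exact eq_sub_of_add_eq h2
  have h4 : ‖GG k W‖ ≤ 1 + ‖GG k W‖ * ‖xx k W‖ := by
    calc ‖GG k W‖ = ‖1 - GG k W * xx k W‖ := by rw [← h3]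
      _ ≤ ‖(1 : B)‖ + ‖GG k W * xx k W‖ := norm_sub_le _ _
      _ ≤ 1 + ‖GG k W‖ * ‖xx k W‖ := by
        rw [h1]
        gcongr
        exact norm_mul_le _ _
  have h5 : ‖xx k W‖ ≤ 6 / (k : ℝ) ^ 2 := by
    rw [xx_norm]
    gcongr
  have h6 : (6 : ℝ) / (k : ℝ) ^ 2 ≤ 1 / 6 := by
    rw [div_le_div_iff₀ (by linarith) (by norm_num)]
    linarith
  have hg := norm_nonneg (GG k W)
  have h7 : ‖GG k W‖ ≤ 6 / 5 := by nlinarith
  refine ⟨h7, ?_⟩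
  have h8 : ‖GG k W‖ * ‖xx k W‖ ≤ 6 / 5 * (6 / (k : ℝ) ^ 2) :=
    mul_le_mul h7 h5 (norm_nonneg _) (by norm_num)
  have h9 : (12 : ℝ) / (k : ℝ) ^ 2 = 2 * (6 / (k : ℝ) ^ 2) := by ring
  have h10 : (0 : ℝ) ≤ 6 / (k : ℝ) ^ 2 := by positivity
  linarith

lemma part2 (h1 : ‖(1 : B)‖ = 1) {k : ℕ} (hk : 6 ≤ k) {W W' : B} (hW : ‖W‖ ≤ 6)
    (hW' : ‖W'‖ ≤ 6) : ‖(GG k W) ^ k - (GG k W') ^ k‖ ≤ 18 / k * ‖W - W'‖ := by
  have hk6 := six hk
  have hk0 : (0 : ℝ) < k := by linarith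
  have hr : (1 : ℝ) ≤ 1 + 12 / (k : ℝ) ^ 2 := by
    have : (0 : ℝ) ≤ 12 / (k : ℝ) ^ 2 := by positivity
    linarith
  have h2 := tel h1 hr (gg_norm h1 hk hW).2 (gg_norm h1 hk hW').2 k
  have h3 : (1 + 12 / (k : ℝ) ^ 2) ^ k ≤ 9 := by
    refine (pow_le (by norm_num) (by omega)).trans ((Real.exp_le_exp.2 (show 12 / (k : ℝ) ≤ 2 from ?_)).trans ?_)
    · rw [div_le_iff₀ hk0]
      linarith
    · have e : Real.exp 2 = Real.exp 1 * Real.exp 1 := by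
        rw [← Real.exp_add]
        norm_num
      rw [e]
      have h5 := exp_one_le
      have h6 := Real.exp_pos 1
      nlinarith
  have h4 : GG k W - GG k W' = GG k W * GG k W' * (xx k W' - xx k W) := by
    have e1 := inv_mul hk hW
    have e2 := inv_mul hk hW'
    linear_combination GG k W' * e1 - GG k W * e2
  have h5 : ‖GG k W - GG k W'‖ ≤ 2 * (‖W - W'‖ / (k : ℝ) ^ 2) := by
    rw [h4, xx_sub]
    have h6 : ‖GG k W * GG k W'‖ ≤ 6 / 5 * (6 / 5) :=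
      (norm_mul_le _ _).trans (mul_le_mul (gg_norm h1 hk hW).1 (gg_norm h1 hk hW').1
        (norm_nonneg _) (by norm_num))
    refine (norm_mul_le _ _).trans ?_
    rw [xx_norm, norm_sub_rev W' W]
    exact mul_le_mul_of_nonneg_right (h6.trans (by norm_num)) (by positivity)
  refine h2.trans ?_
  calc (k : ℝ) * (1 + 12 / (k : ℝ) ^ 2) ^ k * ‖GG k W - GG k W'‖
      ≤ k * 9 * (2 * (‖W - W'‖ / (k : ℝ) ^ 2)) := by gcongr
    _ = 18 / k * ‖W - W'‖ := by field_simp; ring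

lemma gg_zero {k : ℕ} : GG k (0 : B) = 1 := by
  unfold GG
  rw [xx_zero, add_zero, Ring.inverse_one]

end

lemma fin_bd {k : ℕ} (hk : 6 ≤ k) {c : ℝ} (hc0 : 0 ≤ c) (hc : c ≤ 18) {W : B} (hW : ‖W‖ ≤ 6)
    {z : ℝ} (hz : z ≤ c / k * ‖W‖) : z ≤ 108 / (k : ℝ) ^ 1 := by
  have hk6 := six hk
  have hk0 : (0 : ℝ) < k := by linarith
  rw [pow_one]
  calc z ≤ c / k * ‖W‖ := hz
    _ ≤ 18 / k * 6 := by gcongr
    _ = 108 / k := by ring

lemma fin_lip {k : ℕ} (hk : 6 ≤ k) {c : ℝ} (hc : c ≤ 18) {y : ℝ} (hy : 0 ≤ y)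
    {z : ℝ} (hz : z ≤ c / k * y) : z ≤ 108 / (k : ℝ) ^ 1 * y := by
  have hk6 := six hk
  have hk0 : (0 : ℝ) < k := by linarith
  rw [pow_one]
  refine hz.trans ?_
  gcongr
  linarith

/-- Powers and their inverses. -/
theorem main : S_POW := by
  intro B _ _ _ h1
  refine ⟨⟨108, by norm_num, ?_⟩, ⟨108, by norm_num, ?_⟩, fun k hk W hW => inv_mul hk hW⟩
  · intro k hk W W' hW hW'
    refine ⟨fin_bd hk (by norm_num : (0 : ℝ) ≤ 3) (by norm_num) hW ?_,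
      fin_lip hk (by norm_num : (3 : ℝ) ≤ 18) (norm_nonneg _) ?_⟩
    · have h2 := part1 h1 hk hW (show ‖(0 : B)‖ ≤ 6 by rw [norm_zero]; norm_num)
      rwa [xx_zero, add_zero, one_pow, sub_zero] at h2
    · show ‖(1 + xx k W) ^ k - 1 - ((1 + xx k W') ^ k - 1)‖ ≤ _
      rw [sub_sub_sub_cancel_right]
      exact part1 h1 hk hW hW'
  · intro k hk W W' hW hW'
    refine ⟨fin_bd hk (by norm_num : (0 : ℝ) ≤ 18) (by norm_num) hW ?_,
      fin_lip hk (by norm_num : (18 : ℝ) ≤ 18) (norm_nonneg _) ?_⟩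
    · have h2 := part2 h1 hk hW (show ‖(0 : B)‖ ≤ 6 by rw [norm_zero]; norm_num)
      rwa [gg_zero, one_pow, sub_zero] at h2
    · show ‖(GG k W) ^ k - 1 - ((GG k W') ^ k - 1)‖ ≤ _
      rw [sub_sub_sub_cancel_right]
      exact part2 h1 hk hW hW'

end Pool.Agent.N199.TC.POW
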